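import Pool.Agent.ANO5.Tor.Defs
import Pool.Agent.ANO3.Defs

/-!
# ANO5: the main statement

`Normal S`: a normal form of the surface map `S` (`Pool.Agent.ANO3.NormalForm`) which acts
unipotently on the first cohomology of the pieces which are not pseudo-Anosov.  `MainStatement`: no
Anosov diffeomorphism of `S₁ × ⋯ × S_r × N × T^k`, `r > 0` or `dim N > 0`, is homotopic to
`(z, y, t) ↦ (f_i z_i, y, A t + τ (z, y))`.
-/

set_option autoImplicit false

open scoped UpperHalfPlane MatrixGroups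
open Set Filter Topology

namespace Pool.Agent.ANO5

open Pool.Agent.ANO5.A1 Pool.Agent.ANO5.A2 Pool.Agent.ANO5.Tor

/-- The map `H` acts unipotently on the additive functions on `G`: `(ψ^* - 1)^n h = 0` on `G` for all
additive functions `h` on `G`, where `ψ δ = H δ H⁻¹`. -/
def UnipOn (G : Set SL(2, ℝ)) (H : ℍ → ℍ) : Prop :=
  ∃ n : ℕ, ∀ ψ : SL(2, ℝ) → SL(2, ℝ), (∀ δ ∈ G, ψ δ ∈ G ∧ ∀ z : ℍ, H (δ • z) = ψ δ • H z) →
    ∀ h : SL(2, ℝ) → ℝ, (∀ a ∈ G, ∀ b ∈ G, h (a * b) = h a + h b) →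
      ∀ δ ∈ G, (fun (h : SL(2, ℝ) → ℝ) δ => h (ψ δ) - h δ)^[n] h δ = 0

/-- The elements of `Γ` which fix the point of `v` in both trees. -/
def stabSet (Γ : Subgroup SL(2, ℝ)) (du ds : ℍ → ℍ → ℝ) (v : ℍ) : Set SL(2, ℝ) :=
  {γ | γ ∈ Γ ∧ du v (γ • v) = 0 ∧ ds v (γ • v) = 0}

/-- A normal form with the unipotent action on the cohomology of the pieces which are not
pseudo-Anosov. -/
structure Normal (S : SurfaceMap) extends Pool.Agent.ANO3.NormalForm S where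
  unip : ∀ v ∉ U, ∃ (m : ℕ) (γ : SL(2, ℝ)), 0 < m ∧ γ ∈ S.Γ ∧
    du v (γ • S.f^[m] v) = 0 ∧ ds v (γ • S.f^[m] v) = 0 ∧
      UnipOn (stabSet S.Γ du ds v) (fun z => γ • S.f^[m] z)

/-- The statement of phase 5. -/
def MainStatement : Prop :=
  ∀ [TFib] (r : ℕ), (0 < r ∨ 0 < Module.finrank ℝ TFib.base.V) →
    ∀ S : Fin r → SurfaceMap, (∀ i, Nonempty (Normal (S i))) →
      ∀ (A : Matrix (Fin TFib.k) (Fin TFib.k) ℤ) (τ : B r → Fin TFib.k → ℝ),
        IsTwist (surf S) τ → ∀ T : X r ≃ₜ X r, IsAnosovLift (surf S) T →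
          ¬ Homotopic (surf S) (skew S A τ) T

end Pool.Agent.ANO5
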