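import Mathlib

/-!
# ANO5: the fibre factor

Universal covers of closed manifolds of nonpositive curvature.
-/

set_option autoImplicit false

open Set Filter Topology

namespace Pool.Agent.ANO5

/-- The universal cover `W` of a closed manifold `N = W / Γ` of nonpositive curvature, given by

* `W` with its distance (a proper metric space) and global coordinates `crd : W ≃ V` in a vector
  space (Cartan-Hadamard: the inverse of the exponential map at a point);
* the deck group `Γ`: it acts freely, properly discontinuously and cocompactly, by isometries which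
  are `C¹` in the coordinates;
* `nrm x v`: the norm of the tangent vector with the coordinates `v` at `x`, invariant under `Γ`;
* `geo t a b`: the point `t` on the geodesic from `a` (`t = 0`) to `b` (`t = 1`).

Nothing else is required of these data. -/
class Fib where
  W : Type
  V : Type
  [metric : MetricSpace W]
  [proper : ProperSpace W]
  [normed : NormedAddCommGroup V]
  [space : NormedSpace ℝ V]
  [findim : FiniteDimensional ℝ V]
  crd : W ≃ₜ V
  Γ : Subgroup (Equiv.Perm W)
  isom : ∀ g ∈ Γ, ∀ x y : W, dist (g x) (g y) = dist x y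
  smooth : ∀ g ∈ Γ, ContDiff ℝ 1 fun v : V => crd (g (crd.symm v))
  free : ∀ g ∈ Γ, ∀ x : W, g x = x → g = 1
  discrete : ∀ K : Set W, IsCompact K → {g : Equiv.Perm W | g ∈ Γ ∧ ∃ x ∈ K, g x ∈ K}.Finite
  cocompact : ∃ K : Set W, IsCompact K ∧ ∀ x : W, ∃ g ∈ Γ, g x ∈ K
  nrm : W → V → ℝ
  nrm_cont : Continuous fun p : W × V => nrm p.1 p.2
  nrm_add : ∀ (x : W) (v w : V), nrm x (v + w) ≤ nrm x v + nrm x w
  nrm_smul : ∀ (x : W) (c : ℝ) (v : V), nrm x (c • v) = |c| * nrm x v
  nrm_pos : ∀ (x : W) (v : V), v ≠ 0 → 0 < nrm x v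
  nrm_inv : ∀ g ∈ Γ, ∀ (x : W) (v : V),
    nrm (g x) (fderiv ℝ (fun v : V => crd (g (crd.symm v))) (crd x) v) = nrm x v
  geo : ℝ → W → W → W
  geo_smooth : ContDiff ℝ 1 fun q : ℝ × V × V =>
    crd (geo q.1 (crd.symm q.2.1) (crd.symm q.2.2))
  geo_zero : ∀ a b : W, geo 0 a b = a
  geo_one : ∀ a b : W, geo 1 a b = b
  geo_dist : ∀ (a b : W) (t : ℝ), t ∈ Icc (0 : ℝ) 1 → dist (geo t a b) b ≤ dist a b
  geo_inv : ∀ g ∈ Γ, ∀ (t : ℝ) (a b : W), geo t (g a) (g b) = g (geo t a b)

attribute [instance_reducible, instance] Fib.metric Fib.normed Fib.space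
attribute [instance] Fib.proper Fib.findim

variable [Fib]

instance Fib.connected : ConnectedSpace Fib.W :=
  Fib.crd.symm.surjective.connectedSpace Fib.crd.symm.continuous

instance Fib.nonempty : Nonempty Fib.W := ⟨Fib.crd.symm 0⟩

theorem Fib.nrm_zero (x : Fib.W) : Fib.nrm x 0 = 0 := by
  have h := Fib.nrm_smul x 0 0
  rwa [zero_smul, abs_zero, zero_mul] at h

theorem Fib.nrm_nonneg (x : Fib.W) (v : Fib.V) : 0 ≤ Fib.nrm x v := by
  by_cases h : v = 0
  · rw [h, Fib.nrm_zero]
  · exact (Fib.nrm_pos x v h).le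

theorem Fib.continuous_act {g : Equiv.Perm Fib.W} (hg : g ∈ Fib.Γ) : Continuous g :=
  (Isometry.of_dist_eq (Fib.isom g hg)).continuous

theorem Fib.continuous_geo : Continuous fun q : ℝ × Fib.W × Fib.W => Fib.geo q.1 q.2.1 q.2.2 := by
  have h := Fib.crd.symm.continuous.comp (Fib.geo_smooth.continuous.comp
    (continuous_fst.prodMk ((Fib.crd.continuous.comp (continuous_fst.comp continuous_snd)).prodMk
      (Fib.crd.continuous.comp (continuous_snd.comp continuous_snd)))))
  refine h.congr fun q => ?_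
  change Fib.crd.symm (Fib.crd (Fib.geo q.1 (Fib.crd.symm (Fib.crd q.2.1))
    (Fib.crd.symm (Fib.crd q.2.2)))) = _
  rw [Homeomorph.symm_apply_apply, Homeomorph.symm_apply_apply, Homeomorph.symm_apply_apply]

end Pool.Agent.ANO5
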