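import Pool.Agent.ANO5.Fib

/-!
# ANO5: the product of the fibre with a torus
-/

set_option autoImplicit false

open Set Filter Topology

namespace Pool.Agent.ANO5

variable [N : Fib] (k : ℕ)

/-- The deck group of `N × T^k`. -/
def torusGroup : Subgroup (Equiv.Perm (Fib.W × (Fin k → ℝ))) where
  carrier := {g | ∃ δ ∈ Fib.Γ, ∃ v : Fin k → ℤ, ∀ p, g p = (δ p.1, fun j => p.2 j + v j)}
  mul_mem' := by
    rintro a b ⟨δ, hδ, v, h⟩ ⟨δ', hδ', v', h'⟩
    refine ⟨δ * δ', mul_mem hδ hδ', v + v', fun p => ?_⟩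
    rw [Equiv.Perm.mul_apply, h', h]
    refine Prod.ext rfl (funext fun j => ?_)
    simp only [Pi.add_apply, Int.cast_add]
    ring
  one_mem' := ⟨1, one_mem _, 0, fun p => Prod.ext rfl (funext fun j => by simp)⟩
  inv_mem' := by
    rintro a ⟨δ, hδ, v, h⟩
    refine ⟨δ⁻¹, inv_mem hδ, -v, fun p => ?_⟩
    rw [Equiv.Perm.inv_eq_iff_eq, h]
    refine Prod.ext (by simp) (funext fun j => ?_)
    simp

theorem mem_torusGroup {g : Equiv.Perm (Fib.W × (Fin k → ℝ))} : g ∈ torusGroup k ↔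
    ∃ δ ∈ Fib.Γ, ∃ v : Fin k → ℤ, ∀ p, g p = (δ p.1, fun j => p.2 j + v j) := Iff.rfl

omit N in
private theorem abs_le_Prod {R : ℝ} {z : ℤ} (h : |(z : ℝ)| ≤ R) : |z| ≤ ⌈R⌉ := by
  have h1 : ((|z| : ℤ) : ℝ) ≤ (⌈R⌉ : ℝ) := by
    push_cast
    exact h.trans (Int.le_ceil R)
  exact_mod_cast h1

theorem torusGroup_discrete (K : Set (Fib.W × (Fin k → ℝ))) (hK : IsCompact K) :
    {g : Equiv.Perm (Fib.W × (Fin k → ℝ)) | g ∈ torusGroup k ∧ ∃ x ∈ K, g x ∈ K}.Finite := by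
  obtain ⟨R, hR⟩ := (hK.image continuous_snd).isBounded.exists_norm_le
  have h1 := Fib.discrete _ (hK.image continuous_fst)
  have h2 : {v : Fin k → ℤ | ∀ j, |v j| ≤ ⌈R + R⌉}.Finite := by
    have h3 := Set.Finite.pi fun _ : Fin k => Set.finite_Icc (-⌈R + R⌉) ⌈R + R⌉
    refine h3.subset fun v hv j _ => ?_
    exact abs_le.1 (hv j)
  refine ((h1.prod h2).image fun q : Equiv.Perm Fib.W × (Fin k → ℤ) =>
    (fun p : Fib.W × (Fin k → ℝ) => (q.1 p.1, (fun j => p.2 j + q.2 j : Fin k → ℝ)))).preimage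
    (f := fun g : Equiv.Perm (Fib.W × (Fin k → ℝ)) =>
      (g : Fib.W × (Fin k → ℝ) → Fib.W × (Fin k → ℝ))) (DFunLike.coe_injective.injOn) |>.subset ?_
  rintro g ⟨⟨δ, hδ, v, hg⟩, x, hx, hgx⟩
  refine ⟨(δ, v), ⟨⟨hδ, x.1, ⟨x, hx, rfl⟩, ⟨g x, hgx, by rw [hg]⟩⟩, fun j => ?_⟩,
    funext fun p => (hg p).symm⟩
  refine abs_le_Prod ?_
  have h4 := hR x.2 ⟨x, hx, rfl⟩
  have h5 := hR (g x).2 ⟨g x, hgx, rfl⟩
  have h6 := (norm_le_pi_norm x.2 j).trans h4
  have h7 := (norm_le_pi_norm (g x).2 j).trans h5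
  rw [hg] at h7
  simp only [Real.norm_eq_abs] at h6 h7
  have h8 : ((v j : ℤ) : ℝ) = (x.2 j + v j) - x.2 j := by ring
  rw [h8]
  exact (abs_sub _ _).trans (add_le_add h7 h6)

theorem torusGroup_cocompact : ∃ K : Set (Fib.W × (Fin k → ℝ)), IsCompact K ∧
    ∀ x, ∃ g ∈ torusGroup k, g x ∈ K := by
  obtain ⟨K, hK, h⟩ := Fib.cocompact
  refine ⟨K ×ˢ Icc 0 1, hK.prod isCompact_Icc, fun x => ?_⟩
  obtain ⟨δ, hδ, h1⟩ := h x.1
  let v : Fin k → ℤ := fun j => -⌊x.2 j⌋
  let g : Equiv.Perm (Fib.W × (Fin k → ℝ)) :=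
    Equiv.prodCongr δ (Equiv.addRight (fun j => (v j : ℝ)))
  refine ⟨g, ⟨δ, hδ, v, fun p => rfl⟩, h1, fun j => ?_, fun j => ?_⟩
  · show (0 : ℝ) ≤ x.2 j + v j
    have h2 := Int.floor_le (x.2 j)
    simp only [v, Int.cast_neg]
    linarith
  · show x.2 j + v j ≤ (1 : ℝ)
    have h2 := Int.lt_floor_add_one (x.2 j)
    simp only [v, Int.cast_neg]
    linarith

/-- The universal cover of `N × T^k`. -/
@[reducible] noncomputable def prodTorus : Fib where
  W := Fib.W × (Fin k → ℝ)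
  V := Fib.V × (Fin k → ℝ)
  crd := Fib.crd.prodCongr (Homeomorph.refl _)
  Γ := torusGroup k
  isom := by
    rintro g ⟨δ, hδ, v, hg⟩ x y
    rw [hg, hg, Prod.dist_eq, Prod.dist_eq]
    congr 1
    · exact Fib.isom δ hδ _ _
    · exact dist_add_right x.2 y.2 (fun j => (v j : ℝ))
  smooth := by
    rintro g ⟨δ, hδ, v, hg⟩
    have h1 : (fun w : Fib.V × (Fin k → ℝ) => (Fib.crd.prodCongr (Homeomorph.refl _))
        (g ((Fib.crd.prodCongr (Homeomorph.refl _)).symm w))) =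
        fun w => (Fib.crd (δ (Fib.crd.symm w.1)), w.2 + fun j => (v j : ℝ)) := by
      funext w
      rw [hg]
      rfl
    rw [h1]
    exact ((Fib.smooth δ hδ).comp contDiff_fst).prodMk (contDiff_snd.add contDiff_const)
  free := by
    rintro g ⟨δ, hδ, v, hg⟩ x hx
    rw [hg] at hx
    have h1 := Fib.free δ hδ x.1 (congrArg Prod.fst hx)
    have h2 : ∀ j, ((v j : ℤ) : ℝ) = 0 := fun j => by
      have h3 := congrFun (congrArg Prod.snd hx) j
      simp only at h3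
      linarith
    refine Equiv.ext fun p => ?_
    rw [hg, h1]
    refine Prod.ext rfl (funext fun j => ?_)
    simp only [h2, add_zero]
    rfl
  discrete := torusGroup_discrete k
  cocompact := torusGroup_cocompact k
  nrm x v := max (Fib.nrm x.1 v.1) ‖v.2‖
  nrm_cont := by
    refine Continuous.max ?_ ?_
    · exact Fib.nrm_cont.comp ((continuous_fst.comp continuous_fst).prodMk
        (continuous_fst.comp continuous_snd))
    · exact (continuous_snd.comp continuous_snd).norm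
  nrm_add x v w := by
    refine max_le ?_ ?_
    · exact (Fib.nrm_add _ _ _).trans (add_le_add (le_max_left _ _) (le_max_left _ _))
    · exact (norm_add_le _ _).trans (add_le_add (le_max_right _ _) (le_max_right _ _))
  nrm_smul x c v := by
    rw [mul_max_of_nonneg _ _ (abs_nonneg c)]
    congr 1
    · exact Fib.nrm_smul _ _ _
    · exact norm_smul c v.2
  nrm_pos x v hv := by
    by_cases h1 : v.1 = 0
    · refine lt_max_of_lt_right (norm_pos_iff.2 fun h2 => hv (Prod.ext h1 h2))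
    · exact lt_max_of_lt_left (Fib.nrm_pos _ _ h1)
  nrm_inv := by
    rintro g ⟨δ, hδ, v, hg⟩ x w
    have h1 : (fun w : Fib.V × (Fin k → ℝ) => (Fib.crd.prodCongr (Homeomorph.refl _))
        (g ((Fib.crd.prodCongr (Homeomorph.refl _)).symm w))) =
        fun w => (Fib.crd (δ (Fib.crd.symm w.1)), w.2 + fun j => (v j : ℝ)) := by
      funext w
      rw [hg]
      rfl
    have h2 : HasFDerivAt (fun w : Fib.V × (Fin k → ℝ) =>
        (Fib.crd (δ (Fib.crd.symm w.1)), w.2 + fun j => (v j : ℝ)))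
        ((fderiv ℝ (fun w : Fib.V => Fib.crd (δ (Fib.crd.symm w))) (Fib.crd x.1)).prodMap
          (ContinuousLinearMap.id ℝ _)) ((Fib.crd.prodCongr (Homeomorph.refl _)) x) := by
      have h3 := (((Fib.smooth δ hδ).differentiable one_ne_zero) (Fib.crd x.1)).hasFDerivAt
      have h4 : HasFDerivAt (fun w : Fin k → ℝ => w + fun j => (v j : ℝ))
          (ContinuousLinearMap.id ℝ _) x.2 := (hasFDerivAt_id x.2).add_const _
      exact HasFDerivAt.prodMap (p := (Fib.crd x.1, x.2)) h3 h4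
    rw [h1, h2.fderiv, hg]
    congr 1
    exact Fib.nrm_inv δ hδ _ _
  geo t a b := (Fib.geo t a.1 b.1, a.2 + t • (b.2 - a.2))
  geo_smooth := by
    refine ContDiff.prodMk ?_ ?_
    · exact Fib.geo_smooth.comp (contDiff_fst.prodMk
        ((contDiff_fst.comp (contDiff_fst.comp contDiff_snd)).prodMk
          (contDiff_fst.comp (contDiff_snd.comp contDiff_snd))))
    · have h1 : ContDiff ℝ 1 fun q : ℝ × (Fib.V × (Fin k → ℝ)) × (Fib.V × (Fin k → ℝ)) =>
          q.2.1.2 := contDiff_snd.comp (contDiff_fst.comp contDiff_snd)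
      have h2 : ContDiff ℝ 1 fun q : ℝ × (Fib.V × (Fin k → ℝ)) × (Fib.V × (Fin k → ℝ)) =>
          q.2.2.2 := contDiff_snd.comp (contDiff_snd.comp contDiff_snd)
      exact h1.add (contDiff_fst.smul (h2.sub h1))
  geo_zero a b := by
    refine Prod.ext (Fib.geo_zero _ _) ?_
    show a.2 + (0 : ℝ) • (b.2 - a.2) = a.2
    rw [zero_smul, add_zero]
  geo_one a b := by
    refine Prod.ext (Fib.geo_one _ _) ?_
    show a.2 + (1 : ℝ) • (b.2 - a.2) = b.2
    rw [one_smul, add_sub_cancel]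
  geo_dist a b t ht := by
    rw [Prod.dist_eq, Prod.dist_eq]
    refine max_le_max (Fib.geo_dist _ _ t ht) ?_
    show dist (a.2 + t • (b.2 - a.2)) b.2 ≤ dist a.2 b.2
    have h1 : a.2 + t • (b.2 - a.2) - b.2 = (1 - t) • (a.2 - b.2) := by
      rw [sub_smul, one_smul, smul_sub, smul_sub]
      abel
    rw [dist_eq_norm, h1, norm_smul, dist_eq_norm, Real.norm_eq_abs,
      abs_of_nonneg (sub_nonneg.2 ht.2)]
    have h2 := norm_nonneg (a.2 - b.2)
    nlinarith [ht.1]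
  geo_inv := by
    rintro g ⟨δ, hδ, v, hg⟩ t a b
    rw [hg, hg, hg]
    refine Prod.ext (Fib.geo_inv δ hδ t _ _) (funext fun j => ?_)
    simp only [Pi.add_apply, Pi.smul_apply, Pi.sub_apply, smul_eq_mul]
    ring

end Pool.Agent.ANO5
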